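import Pool.Agent.Q14.DP.Data

namespace Q14.DP

open CoxeterSystem

/-- image of the root `x` under the coded permutation `T` -/
def look (T x : ℕ) : ℕ := (T >>> (7 * x)) &&& 127

/-- bounded universal quantifier as a Boolean -/
def allB : ℕ → (ℕ → Bool) → Bool
  | 0, _ => true
  | n + 1, p => p n && allB n p

/-- counting function -/
def cnt : ℕ → (ℕ → Bool) → ℕ
  | 0, _ => 0
  | n + 1, p => (p n).toNat + cnt n p

/-- number of positive roots sent to negative roots -/
def N (σ : ℕ → ℕ) : ℕ := cnt 60 (fun x => Nat.ble 60 (σ x))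

theorem allB_iff (n : ℕ) (p : ℕ → Bool) : allB n p = true ↔ ∀ x < n, p x = true := by
  induction n with
  | zero => simp [allB]
  | succ n ih =>
    simp only [allB, Bool.and_eq_true, ih]
    constructor
    · rintro ⟨h1, h2⟩ x hx
      rcases Nat.lt_succ_iff_lt_or_eq.1 hx with h | h
      · exact h2 x h
      · rw [h]; exact h1
    · intro h
      exact ⟨h n (Nat.lt_succ_self n), fun x hx => h x (Nat.lt_succ_of_lt hx)⟩

theorem cnt_eq (n : ℕ) (p : ℕ → Bool) :
    cnt n p = ((Finset.range n).filter (fun x => p x = true)).card := by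
  induction n with
  | zero => simp [cnt]
  | succ n ih =>
    rw [Finset.range_add_one, Finset.filter_insert]
    simp only [cnt, ih]
    by_cases h : p n = true
    · rw [if_pos h, Finset.card_insert_of_notMem (by simp), h]
      simp [Nat.add_comm]
    · rw [if_neg h]
      simp only [Bool.not_eq_true] at h
      simp [h]

theorem cnt_congr (n : ℕ) (p q : ℕ → Bool) (h : ∀ x < n, p x = q x) : cnt n p = cnt n q := by
  induction n with
  | zero => rfl
  | succ n ih =>
    simp only [cnt]
    rw [h n (Nat.lt_succ_self n), ih (fun x hx => h x (Nat.lt_succ_of_lt hx))]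

theorem N_congr (σ τ : ℕ → ℕ) (h : ∀ x < 120, σ x = τ x) : N σ = N τ :=
  cnt_congr _ _ _ (fun x hx => by rw [h x (by omega)])

theorem N_card (σ : ℕ → ℕ) : N σ = ((Finset.range 60).filter (fun x => 60 ≤ σ x)).card := by
  rw [N, cnt_eq]
  simp

theorem N_comp_le (σ τ : ℕ → ℕ) (hτ : Function.Injective τ) :
    N (fun x => σ (τ x)) ≤ N σ + N τ := by
  simp only [N_card]
  have h1 : (Finset.range 60).filter (fun x => 60 ≤ σ (τ x)) ⊆
      (Finset.range 60).filter (fun x => τ x < 60 ∧ 60 ≤ σ (τ x)) ∪
      (Finset.range 60).filter (fun x => 60 ≤ τ x) := by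
    intro x hx
    simp only [Finset.mem_filter, Finset.mem_union, Finset.mem_range] at hx ⊢
    by_cases h : τ x < 60
    · exact Or.inl ⟨hx.1, h, hx.2⟩
    · exact Or.inr ⟨hx.1, by omega⟩
  have h2 : ((Finset.range 60).filter (fun x => τ x < 60 ∧ 60 ≤ σ (τ x))).card ≤
      ((Finset.range 60).filter (fun x => 60 ≤ σ x)).card := by
    apply Finset.card_le_card_of_injOn τ
    · intro x hx
      simp only [Finset.coe_filter, Finset.mem_range, Set.mem_ofPred_eq] at hx ⊢
      exact ⟨hx.2.1, hx.2.2⟩
    · exact hτ.injOn
  calc _ ≤ _ := Finset.card_le_card h1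
    _ ≤ _ := Finset.card_union_le _ _
    _ ≤ _ := Nat.add_le_add_right h2 _

/-- the action on all naturals: identity outside the 120 roots -/
def act (T : ℕ) : Function.End ℕ := fun x => if x < 120 then look T x else x

theorem gen_range : ∀ i : Fin 4, allB 120 (fun x => Nat.ble (look (gen i) x) 119) = true := by
  decide +kernel

theorem gen_lt (i : Fin 4) (x : ℕ) (hx : x < 120) : look (gen i) x < 120 := by
  have := (allB_iff _ _).1 (gen_range i) x hx
  simp only [Nat.ble_eq] at this
  omega

theorem act_lt (i : Fin 4) (x : ℕ) (hx : x < 120) : act (gen i) x < 120 := by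
  simp only [act, if_pos hx]
  exact gen_lt i x hx

theorem lift_check : ∀ i j : Fin 4, allB 120 (fun x =>
    Nat.beq ((fun y => look (gen i) (look (gen j) y))^[CoxeterMatrix.H₄ i j] x) x) = true := by
  decide +kernel

theorem pow_apply (g : Function.End ℕ) (m : ℕ) (x : ℕ) : (g ^ m) x = (g : ℕ → ℕ)^[m] x := by
  induction m generalizing x with
  | zero => rfl
  | succ m ih =>
    rw [pow_succ, Function.iterate_succ_apply]
    exact ih (g x)

theorem liftable : CoxeterMatrix.IsLiftable CoxeterMatrix.H₄ (fun i => act (gen i)) := by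
  intro i j
  funext x
  rw [pow_apply]
  show _ = x
  by_cases hx : x < 120
  · have h := (allB_iff _ _).1 (lift_check i j) x hx
    have h' := Nat.eq_of_beq_eq_true h
    have key : ∀ (m x : ℕ), x < 120 →
        ((act (gen i) * act (gen j) : Function.End ℕ) : ℕ → ℕ)^[m] x =
          (fun y => look (gen i) (look (gen j) y))^[m] x := by
      intro m
      induction m with
      | zero => intro x _; rfl
      | succ m ih =>
        intro x hx
        rw [Function.iterate_succ_apply, Function.iterate_succ_apply]
        have e : (act (gen i) * act (gen j) : Function.End ℕ) x =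
            look (gen i) (look (gen j) x) := by
          show act (gen i) (act (gen j) x) = _
          have := gen_lt j x hx
          simp [act, hx, this]
        rw [e]
        exact ih _ (gen_lt i _ (gen_lt j x hx))
    rw [key _ _ hx]
    exact h'
  · have key : ∀ m : ℕ, ((act (gen i) * act (gen j) : Function.End ℕ) : ℕ → ℕ)^[m] x = x := by
      intro m
      induction m with
      | zero => rfl
      | succ m ih =>
        rw [Function.iterate_succ_apply]
        have e : (act (gen i) * act (gen j) : Function.End ℕ) x = x := by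
          show act (gen i) (act (gen j) x) = _
          simp [act, hx]
        rw [e]
        exact ih
    exact key _

variable {W : Type*} [Group W] (cs : CoxeterSystem CoxeterMatrix.H₄ W)

/-- the action of the group on the roots -/
noncomputable def rho : W →* Function.End ℕ := cs.lift ⟨fun i => act (gen i), liftable⟩

theorem rho_simple (i : Fin 4) : rho cs (cs.simple i) = act (gen i) := by
  unfold rho
  exact cs.lift_apply_simple liftable i

theorem rho_mul (u v : W) (x : ℕ) : rho cs (u * v) x = rho cs u (rho cs v x) := by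
  rw [map_mul]; rfl

theorem rho_one (x : ℕ) : rho cs 1 x = x := by
  rw [map_one]; rfl

theorem rho_inj (u : W) : Function.Injective (rho cs u : ℕ → ℕ) := by
  have h : Function.LeftInverse (rho cs u⁻¹ : ℕ → ℕ) (rho cs u : ℕ → ℕ) := by
    intro x
    rw [← rho_mul, inv_mul_cancel, rho_one]
  exact h.injective

/-- evaluation of a word on the roots -/
def run : List (Fin 4) → ℕ → ℕ
  | [], x => x
  | i :: ω, x => look (gen i) (run ω x)

theorem run_lt (ω : List (Fin 4)) (x : ℕ) (hx : x < 120) : run ω x < 120 := by
  induction ω with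
  | nil => exact hx
  | cons i ω ih => exact gen_lt i _ ih

theorem rho_word (ω : List (Fin 4)) (x : ℕ) (hx : x < 120) :
    rho cs (cs.wordProd ω) x = run ω x := by
  induction ω with
  | nil => rw [wordProd_nil, rho_one]; rfl
  | cons i ω ih =>
    rw [wordProd_cons, rho_mul, ih, rho_simple]
    show (if run ω x < 120 then look (gen i) (run ω x) else run ω x) = _
    rw [if_pos (run_lt ω x hx)]
    rfl

theorem rho_lt (u : W) (x : ℕ) (hx : x < 120) : rho cs u x < 120 := by
  obtain ⟨ω, -, rfl⟩ := cs.exists_isReduced u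
  rw [rho_word cs ω x hx]
  exact run_lt ω x hx

theorem N_mul_le (u v : W) : N (rho cs (u * v)) ≤ N (rho cs u) + N (rho cs v) := by
  have h : N (rho cs (u * v)) = N (fun x => rho cs u (rho cs v x)) :=
    N_congr _ _ (fun x _ => rho_mul cs u v x)
  rw [h]
  exact N_comp_le _ _ (rho_inj cs v)

theorem N_one : N (rho cs 1) = 0 := by
  have h : N (rho cs 1) = N (fun x => x) := N_congr _ _ (fun x _ => rho_one cs x)
  rw [h]
  decide +kernel

theorem gen_N : ∀ i : Fin 4, N (look (gen i)) = 1 := by decide +kernel

theorem N_simple (i : Fin 4) : N (rho cs (cs.simple i)) = 1 := by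
  rw [← gen_N i]
  apply N_congr
  intro x hx
  rw [rho_simple]
  simp [act, hx]

theorem N_le_length (u : W) : N (rho cs u) ≤ cs.length u := by
  obtain ⟨ω, hω, rfl⟩ := cs.exists_isReduced u
  rw [hω.eq]
  clear hω
  induction ω with
  | nil => rw [wordProd_nil, N_one]; exact Nat.zero_le _
  | cons i ω ih =>
    rw [wordProd_cons, List.length_cons]
    have := N_mul_le cs (cs.simple i) (cs.wordProd ω)
    rw [N_simple] at this
    omega

theorem base_check : ∀ i : Fin 4, RL.any (fun D => allB 120 (fun x =>
    Nat.beq (look (gen i) x) (look D.1 x))) = true := by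
  decide +kernel

theorem conj_check : ∀ j : Fin 4, RL.all (fun C => RL.any (fun D => allB 120 (fun x =>
    Nat.beq (look (gen j) (look C.1 (look (gen j) x))) (look D.1 x)))) = true := by
  decide +kernel

theorem RL_check : RL.all (fun C => Nat.beq (N (look C.1)) C.2 &&
    allB 120 (fun x => Nat.ble (look C.1 x) 119)) = true := by
  decide +kernel

theorem RL_lt (C : ℕ × ℕ) (hC : C ∈ RL) (x : ℕ) (hx : x < 120) : look C.1 x < 120 := by
  have h := List.all_eq_true.1 RL_check C hC
  rw [Bool.and_eq_true] at h
  have := (allB_iff _ _).1 h.2 x hx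
  simp only [Nat.ble_eq] at this
  omega

theorem RL_N (C : ℕ × ℕ) (hC : C ∈ RL) : N (look C.1) = C.2 := by
  have h := List.all_eq_true.1 RL_check C hC
  rw [Bool.and_eq_true] at h
  exact Nat.eq_of_beq_eq_true h.1

theorem refl_rep (t : W) (ht : cs.IsReflection t) :
    ∃ D ∈ RL, ∀ x < 120, rho cs t x = look D.1 x := by
  obtain ⟨u, i, rfl⟩ := ht
  obtain ⟨ω, -, rfl⟩ := cs.exists_isReduced u
  induction ω with
  | nil =>
    obtain ⟨D, hD, h⟩ := List.any_eq_true.1 (base_check i)
    refine ⟨D, hD, fun x hx => ?_⟩
    have := Nat.eq_of_beq_eq_true ((allB_iff _ _).1 h x hx)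
    rw [← this, wordProd_nil, one_mul, inv_one, mul_one, rho_simple]
    simp [act, hx]
  | cons j ω ih =>
    obtain ⟨C, hC, hCx⟩ := ih
    obtain ⟨D, hD, h⟩ := List.any_eq_true.1 (List.all_eq_true.1 (conj_check j) C hC)
    refine ⟨D, hD, fun x hx => ?_⟩
    have h3 := Nat.eq_of_beq_eq_true ((allB_iff _ _).1 h x hx)
    rw [← h3]
    have e : cs.wordProd (j :: ω) * cs.simple i * (cs.wordProd (j :: ω))⁻¹ =
        cs.simple j * ((cs.wordProd ω * cs.simple i * (cs.wordProd ω)⁻¹) * cs.simple j) := by
      rw [wordProd_cons, mul_inv_rev, cs.inv_simple]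
      simp only [mul_assoc]
    rw [e, rho_mul, rho_mul, rho_simple]
    have e1 : act (gen j) x = look (gen j) x := by simp [act, hx]
    have l1 := gen_lt j x hx
    rw [e1, hCx _ l1]
    have l2 := RL_lt C hC _ l1
    simp [act, l2]

end Q14.DP
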