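import Pool.Agent.Q14.DP.Core

namespace Q14.DP

open CoxeterSystem

/-- the coded permutations of a level: correct inversion number, not the identity, in range -/
def validB (A : List (ℕ × ℕ)) : Bool := A.all fun C =>
  Nat.beq (N (look C.1)) C.2 && (Nat.ble 1 C.2 && allB 120 (fun x => Nat.ble (look C.1 x) 119))

/-- every additive left cancellation of a reflection from a member of `A` lands in `B` -/
def stepB (A B : List (ℕ × ℕ)) : Bool := A.all fun C => RL.all fun D =>
  (!(Nat.beq (cnt 60 (fun x => Nat.ble 60 (look D.1 (look C.1 x))) + D.2) C.2)) ||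
    B.any fun E => allB 120 (fun x => Nat.beq (look D.1 (look C.1 x)) (look E.1 x))

/-- the whole search -/
def chain : List (ℕ × ℕ) → List (List (ℕ × ℕ)) → Bool
  | A, [] => validB A
  | A, B :: Bs => validB A && (stepB A B && chain B Bs)

theorem chain_check : chain L0 [L1, L2, L3, L4, L5, L6, L7] = true := by
  decide +kernel

variable {W : Type*} [Group W] (cs : CoxeterSystem CoxeterMatrix.H₄ W)

theorem N_prod_le (l : List W) : N (rho cs l.prod) ≤ (l.map fun t => N (rho cs t)).sum := by
  induction l with
  | nil => rw [List.prod_nil, N_one]; exact Nat.zero_le _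
  | cons t l ih =>
    rw [List.prod_cons, List.map_cons, List.sum_cons]
    have := N_mul_le cs t l.prod
    omega

theorem chain_valid (A : List (ℕ × ℕ)) (Bs : List (List (ℕ × ℕ))) (h : chain A Bs = true) :
    validB A = true := by
  cases Bs with
  | nil => exact h
  | cons B Bs =>
    simp only [chain, Bool.and_eq_true] at h
    exact h.1

theorem chain_sound (Bs : List (List (ℕ × ℕ))) : ∀ (A : List (ℕ × ℕ)), chain A Bs = true →
    ∀ l : List W, (∀ t ∈ l, cs.IsReflection t) →
      (∃ C ∈ A, ∀ x < 120, rho cs l.prod x = look C.1 x) →
      N (rho cs l.prod) = (l.map fun t => N (rho cs t)).sum → Bs.length + 1 ≤ l.length := by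
  induction Bs with
  | nil =>
    intro A hA l hl hC hN
    cases l with
    | cons t l => simp
    | nil =>
      exfalso
      obtain ⟨C, hC, hx⟩ := hC
      have h := List.all_eq_true.1 (chain_valid A [] hA) C hC
      simp only [Bool.and_eq_true] at h
      obtain ⟨h1, h2, -⟩ := h
      have h1' := Nat.eq_of_beq_eq_true h1
      rw [List.prod_nil] at hx
      have h3 : N (rho cs (1 : W)) = N (look C.1) := N_congr _ _ hx
      rw [N_one] at h3
      simp only [Nat.ble_eq] at h2
      omega
  | cons B Bs ih =>
    intro A hA l hl hC hN
    cases l with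
    | nil =>
      exfalso
      obtain ⟨C, hC, hx⟩ := hC
      have h := List.all_eq_true.1 (chain_valid A _ hA) C hC
      simp only [Bool.and_eq_true] at h
      obtain ⟨h1, h2, -⟩ := h
      have h1' := Nat.eq_of_beq_eq_true h1
      rw [List.prod_nil] at hx
      have h3 : N (rho cs (1 : W)) = N (look C.1) := N_congr _ _ hx
      rw [N_one] at h3
      simp only [Nat.ble_eq] at h2
      omega
    | cons t l =>
      obtain ⟨C, hC, hx⟩ := hC
      have hv := List.all_eq_true.1 (chain_valid A _ hA) C hC
      simp only [Bool.and_eq_true] at hv
      obtain ⟨hv1, hv2, hv3⟩ := hv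
      have hv1' := Nat.eq_of_beq_eq_true hv1
      have ht : cs.IsReflection t := hl t (by simp)
      obtain ⟨D, hD, hDx⟩ := refl_rep cs t ht
      have hprod : l.prod = t * (t :: l).prod := by
        rw [List.prod_cons, ← mul_assoc, ht.mul_self, one_mul]
      have hrl : ∀ x < 120, rho cs l.prod x = look D.1 (look C.1 x) := by
        intro x hx'
        rw [hprod, rho_mul, hx x hx']
        apply hDx
        have := (allB_iff _ _).1 hv3 x hx'
        simp only [Nat.ble_eq] at this
        omega
      have hNt : N (rho cs t) = D.2 := by
        rw [N_congr _ _ hDx]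
        exact RL_N D hD
      have hNC : N (rho cs (t :: l).prod) = C.2 := by
        rw [N_congr _ _ hx]
        exact hv1'
      have hsub := N_mul_le cs t l.prod
      have hsub2 := N_prod_le cs l
      rw [List.map_cons, List.sum_cons] at hN
      rw [List.prod_cons] at hN hNC
      have hNl : N (rho cs l.prod) = (l.map fun t => N (rho cs t)).sum := by omega
      have hadd : N (rho cs l.prod) + D.2 = C.2 := by omega
      simp only [chain, Bool.and_eq_true] at hA
      obtain ⟨-, hstep, hrest⟩ := hA
      have hs := List.all_eq_true.1 (List.all_eq_true.1 hstep C hC) D hD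
      rw [Bool.or_eq_true] at hs
      have hcnt : cnt 60 (fun x => Nat.ble 60 (look D.1 (look C.1 x))) = N (rho cs l.prod) :=
        (N_congr _ _ hrl).symm
      rcases hs with hs | hs
      · exfalso
        rw [hcnt, hadd] at hs
        simp at hs
      · obtain ⟨E, hE, hEx⟩ := List.any_eq_true.1 hs
        have hgood : ∃ E ∈ B, ∀ x < 120, rho cs l.prod x = look E.1 x := by
          refine ⟨E, hE, fun x hx' => ?_⟩
          rw [hrl x hx']
          exact Nat.eq_of_beq_eq_true ((allB_iff _ _).1 hEx x hx')
        have := ih B hrest l (fun s hs => hl s (by simp [hs])) hgood hNl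
        simp only [List.length_cons]
        omega

/-- the word of the element -/
def word : List (Fin 4) := [2, 1, 0, 3, 2, 1, 3, 2, 3, 1, 2, 3, 1, 2, 3, 0, 1, 2, 3, 2, 1, 0]

theorem word_check : L0.any (fun C => allB 120 (fun x =>
    Nat.beq (run word x) (look C.1 x))) = true ∧ N (run word) = 22 := by
  decide +kernel

/-- the element -/
noncomputable def elt : W := cs.wordProd word

theorem elt_good : ∃ C ∈ L0, ∀ x < 120, rho cs (elt cs) x = look C.1 x := by
  obtain ⟨C, hC, h⟩ := List.any_eq_true.1 word_check.1
  refine ⟨C, hC, fun x hx => ?_⟩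
  rw [elt, rho_word cs word x hx]
  exact Nat.eq_of_beq_eq_true ((allB_iff _ _).1 h x hx)

theorem elt_N : N (rho cs (elt cs)) = 22 := by
  rw [← word_check.2]
  exact N_congr _ _ (fun x hx => rho_word cs word x hx)

theorem elt_length : cs.length (elt cs) = 22 := by
  apply le_antisymm
  · exact cs.length_wordProd_le word
  · have := N_le_length cs (elt cs)
    rw [elt_N] at this
    exact this

theorem sum_N_le (l : List W) :
    (l.map fun t => N (rho cs t)).sum ≤ (l.map cs.length).sum := by
  induction l with
  | nil => simp
  | cons t l ih =>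
    rw [List.map_cons, List.map_cons, List.sum_cons, List.sum_cons]
    have := N_le_length cs t
    omega

/-- every reduced factorization of the element has at least 8 factors -/
theorem eight_le (l : List W) (hl : ∀ t ∈ l, cs.IsReflection t) (hp : l.prod = elt cs)
    (hr : (l.map cs.length).sum = 22) : 8 ≤ l.length := by
  have h1 := N_prod_le cs l
  have h2 := sum_N_le cs l
  have h3 := elt_N cs
  rw [hp] at h1
  apply chain_sound cs [L1, L2, L3, L4, L5, L6, L7] L0 chain_check l hl
  · rw [hp]; exact elt_good cs
  · rw [hp]; omega

theorem length_prod_le (l : List W) : cs.length l.prod ≤ (l.map cs.length).sum := by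
  induction l with
  | nil => simp
  | cons t l ih =>
    rw [List.prod_cons, List.map_cons, List.sum_cons]
    have := cs.length_mul_le t l.prod
    omega

theorem parity (l : List W) : cs.length l.prod % 2 = (l.map cs.length).sum % 2 := by
  induction l with
  | nil => simp
  | cons t l ih =>
    rw [List.prod_cons, List.map_cons, List.sum_cons]
    have := cs.length_mul_mod_two t l.prod
    omega

theorem parity' (l : List W) (hl : ∀ t ∈ l, cs.IsReflection t) :
    (l.map cs.length).sum % 2 = l.length % 2 := by
  induction l with
  | nil => simp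
  | cons t l ih =>
    rw [List.map_cons, List.sum_cons, List.length_cons]
    have h1 := (hl t (by simp)).odd_length
    have h2 := ih (fun s hs => hl s (by simp [hs]))
    obtain ⟨k, hk⟩ := h1
    omega

/-- the cost of every factorization of the element is at least 13 -/
theorem cost_ge (l : List W) (hl : ∀ t ∈ l, cs.IsReflection t) (hp : l.prod = elt cs) :
    26 ≤ l.length + (l.map cs.length).sum := by
  have h0 := length_prod_le cs l
  rw [hp, elt_length] at h0
  have h1 := parity cs l
  rw [hp, elt_length] at h1
  have h2 := parity' cs l hl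
  by_cases h4 : 4 ≤ l.length
  · omega
  · by_cases h22 : (l.map cs.length).sum = 22
    · have := eight_le cs l hl hp h22
      omega
    · have h3 : l.length ≠ 0 := by
        intro h
        have hnil := List.length_eq_zero_iff.1 h
        rw [hnil, List.prod_nil] at hp
        have := elt_length cs
        rw [← hp, cs.length_one] at this
        omega
      omega

theorem braid (A C : List (Fin 4)) (i j : Fin 4) :
    cs.wordProd (A ++ (braidWord CoxeterMatrix.H₄ i j ++ C)) =
      cs.wordProd (A ++ (braidWord CoxeterMatrix.H₄ j i ++ C)) := by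
  simp only [wordProd_append]
  rw [cs.wordProd_braidWord_eq i j]

theorem delete (A C : List (Fin 4)) (i : Fin 4) :
    cs.wordProd (A ++ (i :: i :: C)) = cs.wordProd (A ++ C) := by
  simp only [wordProd_append, wordProd_cons]
  rw [← mul_assoc (cs.simple i), cs.simple_mul_simple_self, one_mul]

end Q14.DP
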